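import Mathlib

/-! Lifting circle valued maps on convex sets, and constancy of real functions whose
exponential is constant. -/

namespace K4H41.PC

open Complex Set

/-- A unimodular function on a convex set has a continuous real logarithm. -/
theorem exists_lift {E : Type*} [AddCommGroup E] [Module ℝ E] [TopologicalSpace E]
    [IsTopologicalAddGroup E] [ContinuousSMul ℝ E]
    {K : Set E} (hK : Convex ℝ K) (f : E → ℂ) (hf : ContinuousOn f K)
    (h1 : ∀ x ∈ K, ‖f x‖ = 1) :
    ∃ D : E → ℝ, ContinuousOn D K ∧ ∀ x ∈ K, Complex.exp (D x * I) = f x := by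
  classical
  rcases K.eq_empty_or_nonempty with rfl | ⟨x₀, hx₀⟩
  · exact ⟨fun _ => 0, continuousOn_empty _, by simp⟩
  -- the circle valued map
  let F : C(K, Circle) :=
    ⟨fun x => ⟨f x, by simpa [Submonoid.unitSphere] using h1 x x.2⟩, by
      refine Continuous.subtype_mk ?_ _
      exact continuousOn_iff_continuous_domRestrict.mp hf⟩
  -- the contraction
  let c : C(unitInterval × K, K) :=
    ⟨fun p => ⟨(1 - (p.1 : ℝ)) • x₀ + (p.1 : ℝ) • (p.2 : E),
      hK hx₀ p.2.2 (by have := p.1.2.2; linarith) p.1.2.1 (by ring)⟩, by fun_prop⟩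
  obtain ⟨e, he⟩ : ∃ e : ℝ, Circle.exp e = F ⟨x₀, hx₀⟩ := by
    obtain ⟨e, -, he⟩ := Circle.surjOn_exp_neg_pi_pi (mem_univ (F ⟨x₀, hx₀⟩))
    exact ⟨e, he⟩
  have H0 : ∀ a : K, (F.comp c) (0, a) = Circle.exp (ContinuousMap.const K e a) := by
    intro a
    simp only [ContinuousMap.comp_apply, ContinuousMap.const_apply, he]
    congr 1
    ext
    simp [c]
  let L := Circle.isCoveringMap_exp.liftHomotopy (F.comp c) (ContinuousMap.const K e) H0
  have hL : ∀ a : K, Circle.exp (L (1, a)) = F a := by
    intro a
    have := congrFun (Circle.isCoveringMap_exp.liftHomotopy_lifts (F.comp c)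
      (ContinuousMap.const K e) H0) (1, a)
    simp only [Function.comp_apply] at this
    rw [show L = _ from rfl, this]
    simp only [ContinuousMap.comp_apply]
    congr 1
    ext
    simp [c]
  refine ⟨fun x => if h : x ∈ K then L (1, ⟨x, h⟩) else 0, ?_, ?_⟩
  · rw [continuousOn_iff_continuous_domRestrict]
    have : K.domRestrict (fun x => if h : x ∈ K then L (1, ⟨x, h⟩) else 0) = fun a : K => L (1, a) := by
      ext a
      simp [Set.domRestrict_apply]
    rw [this]
    fun_prop
  · intro x hx
    simp only [hx, dif_pos]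
    have := congrArg (fun z : Circle => (z : ℂ)) (hL ⟨x, hx⟩)
    simpa [F, Circle.coe_exp] using this

/-- a continuous real function on a preconnected set whose exponential is constant is constant -/
theorem const_of_exp {E : Type*} [TopologicalSpace E] {S : Set E} (hS : IsPreconnected S)
    {F : E → ℝ} (hF : ContinuousOn F S) (s : ℂ) (h : ∀ x ∈ S, Complex.exp (F x * I) = s) :
    ∀ x ∈ S, ∀ y ∈ S, F x = F y := by
  intro x hx y hy
  have key : ∀ z ∈ S, ∃ n : ℤ, (F z - F x) / (2 * Real.pi) = n := by
    intro z hz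
    have h1 := (h z hz).trans (h x hx).symm
    rw [Complex.exp_eq_exp_iff_exists_int] at h1
    obtain ⟨n, hn⟩ := h1
    refine ⟨n, ?_⟩
    have h2 : (F z : ℂ) = F x + n * (2 * Real.pi) := by
      have hI : (I : ℂ) ≠ 0 := I_ne_zero
      have : ((F z : ℂ) - (F x + n * (2 * Real.pi))) * I = 0 := by
        linear_combination hn
      rcases mul_eq_zero.mp this with h3 | h3
      · exact sub_eq_zero.mp h3
      · exact absurd h3 hI
    have h3 : F z = F x + n * (2 * Real.pi) := by exact_mod_cast h2
    rw [h3]
    field_simp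
    ring
  have hc : ContinuousOn (fun z => (F z - F x) / (2 * Real.pi)) S := by fun_prop
  have hm : MapsTo (fun z => (F z - F x) / (2 * Real.pi)) S (range ((↑) : ℤ → ℝ)) := by
    intro z hz
    obtain ⟨n, hn⟩ := key z hz
    exact ⟨n, hn.symm⟩
  have hd : IsDiscrete (range ((↑) : ℤ → ℝ)) := by
    exact Int.isClosedEmbedding_coe_real.isEmbedding.isDiscrete_range
  have := hS.constant_of_mapsTo hd hc hm hx hy
  simp only [sub_self, zero_div] at this
  have hpi : (2 * Real.pi) ≠ 0 := by positivity
  rcases div_eq_zero_iff.mp this.symm with h4 | h4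
  · linarith
  · exact absurd h4 hpi

end K4H41.PC
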