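import Mathlib
import Pool.Agent.K4H41.PC.Lift

/-! The topological obstruction: there is no continuous unitary valued function on the
simplex spanned by `S₄` which respects all the block decompositions. -/

namespace K4H41.PC

open Complex Set Equiv

abbrev P4 := Perm (Fin 4)
abbrev E4 := P4 → ℝ

/-- the simplex -/
def Δ : Set E4 := stdSimplex ℝ P4

/-- faces given by a forbidden set of permutations -/
def Fc (Z : P4 → Prop) : Set E4 := {x | x ∈ Δ ∧ ∀ π, Z π → x π = 0}

theorem convex_Fc (Z : P4 → Prop) : Convex ℝ (Fc Z) := by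
  rintro x ⟨hx, hx'⟩ y ⟨hy, hy'⟩ a b ha hb hab
  refine ⟨convex_stdSimplex ℝ P4 hx hy ha hb hab, fun π hπ => ?_⟩
  simp [hx' π hπ, hy' π hπ]

theorem preconnected_Fc (Z : P4 → Prop) : IsPreconnected (Fc Z) :=
  (convex_Fc Z).isPreconnected

theorem Fc_sub (Z : P4 → Prop) : Fc Z ⊆ Δ := fun _ h => h.1

/-- vertices -/
def vtx (π : P4) : E4 := Pi.single π 1

theorem vtx_mem (π : P4) : vtx π ∈ Δ := single_mem_stdSimplex ℝ π

theorem vtx_mem_Fc {Z : P4 → Prop} {π : P4} (h : ¬ Z π) : vtx π ∈ Fc Z := by
  refine ⟨vtx_mem π, fun ρ hρ => ?_⟩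
  have : ρ ≠ π := by rintro rfl; exact h hρ
  simp [vtx, Pi.single_apply, this]

theorem convex_Δ : Convex ℝ Δ := convex_stdSimplex ℝ P4

variable {u : E4 → Matrix (Fin 4) (Fin 4) ℂ}

/-- the hypotheses on `u` -/
structure Good (u : E4 → Matrix (Fin 4) (Fin 4) ℂ) : Prop where
  cont : ContinuousOn u Δ
  unit : ∀ x ∈ Δ, (u x).conjTranspose * u x = 1
  face : ∀ x ∈ Δ, ∀ A B : Finset (Fin 4), (∀ π : P4, B.image π ≠ A → x π = 0) →
    ∀ i j, u x i j ≠ 0 → (j ∈ A ↔ i ∈ B)

/-- the face where `π i = j` for all the permutations involved -/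
abbrev F₁ (i j : Fin 4) : Set E4 := Fc (fun π => π i ≠ j)

/-- the face where `π {0,b} = {j,j'}` for all the permutations involved -/
abbrev F₂ (b j j' : Fin 4) : Set E4 := Fc (fun π => ({0, b} : Finset (Fin 4)).image π ≠ {j, j'})

theorem Good.zero₁ (h : Good u) {i j : Fin 4} {x : E4} (hx : x ∈ F₁ i j) (j' : Fin 4) (hj : j' ≠ j) :
    u x i j' = 0 := by
  by_contra h0
  have := h.face x hx.1 {j} {i} (fun π hπ => hx.2 π (by simpa using hπ)) i j' h0
  simp at this
  exact hj this

theorem Good.zero₁' (h : Good u) {i j : Fin 4} {x : E4} (hx : x ∈ F₁ i j) (i' : Fin 4) (hi : i' ≠ i) :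
    u x i' j = 0 := by
  by_contra h0
  have := h.face x hx.1 {j} {i} (fun π hπ => hx.2 π (by simpa using hπ)) i' j h0
  simp at this
  exact hi this

theorem Good.col (h : Good u) {x : E4} (hx : x ∈ Δ) (j k : Fin 4) :
    ∑ i, star (u x i j) * u x i k = if j = k then 1 else 0 := by
  have := congrFun (congrFun (h.unit x hx) j) k
  simpa [Matrix.mul_apply, Matrix.one_apply] using this

theorem norm_one_of {z : ℂ} (h : star z * z = 1) : ‖z‖ = 1 := by
  have h1 : (Complex.normSq z : ℂ) = 1 := by
    rw [Complex.normSq_eq_conj_mul_self]; simpa using h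
  have h2 : Complex.normSq z = 1 := by exact_mod_cast h1
  rw [Complex.normSq_eq_norm_sq] at h2
  have h3 : 0 ≤ ‖z‖ := norm_nonneg z
  nlinarith

theorem Good.norm₁ (h : Good u) {i j : Fin 4} {x : E4} (hx : x ∈ F₁ i j) : ‖u x i j‖ = 1 := by
  apply norm_one_of
  have := h.col hx.1 j j
  rw [Finset.sum_eq_single i] at this
  · simpa using this
  · intro i' _ hi
    rw [h.zero₁' hx i' hi]; simp
  · simp

/-- the minor -/
def mnr (u : E4 → Matrix (Fin 4) (Fin 4) ℂ) (b j j' : Fin 4) (x : E4) : ℂ :=
  u x 0 j * u x b j' - u x 0 j' * u x b j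

theorem Good.norm₂ (h : Good u) {b j j' : Fin 4} (hb : b ≠ 0) (hj : j ≠ j') {x : E4}
    (hx : x ∈ F₂ b j j') : ‖mnr u b j j' x‖ = 1 := by
  have hz : ∀ i, i ≠ 0 → i ≠ b → ∀ k, k ∈ ({j, j'} : Finset (Fin 4)) → u x i k = 0 := by
    intro i hi0 hib k hk
    by_contra h0
    have := h.face x hx.1 {j, j'} {0, b} (fun π hπ => hx.2 π hπ) i k h0
    simp only [hk, true_iff] at this
    simp [hi0, hib] at this
  have hs : ∀ k l, k ∈ ({j, j'} : Finset (Fin 4)) → l ∈ ({j, j'} : Finset (Fin 4)) →
      star (u x 0 k) * u x 0 l + star (u x b k) * u x b l = if k = l then 1 else 0 := by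
    intro k l hk hl
    rw [← h.col hx.1 k l]
    rw [← Finset.sum_subset (Finset.subset_univ ({0, b} : Finset (Fin 4)))]
    · rw [Finset.sum_pair (Ne.symm hb)]
    · intro i _ hi
      simp only [Finset.mem_insert, Finset.mem_singleton, not_or] at hi
      rw [hz i hi.1 hi.2 k hk]; simp
  have h1 := hs j j (by simp) (by simp)
  have h2 := hs j' j' (by simp) (by simp)
  have h3 := hs j j' (by simp) (by simp)
  have h4 := hs j' j (by simp) (by simp)
  simp only [if_true, hj, Ne.symm hj, if_false] at h1 h2 h3 h4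
  apply norm_one_of
  simp only [mnr, star_sub, star_mul']
  linear_combination h2 * (star (u x 0 j) * u x 0 j + star (u x b j) * u x b j) + h1
    - h3 * (star (u x 0 j') * u x 0 j + star (u x b j') * u x b j)

theorem Good.contEntry (h : Good u) (i j : Fin 4) : ContinuousOn (fun x => u x i j) Δ := by
  have := h.cont
  fun_prop

theorem Good.norm_det (h : Good u) {x : E4} (hx : x ∈ Δ) : ‖(u x).det‖ = 1 := by
  apply norm_one_of
  have := congrArg Matrix.det (h.unit x hx)
  simpa [Matrix.det_mul, Matrix.det_conjTranspose] using this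

/-- `det` for a matrix with the zero pattern of the edge from `π` to `π * swap 0 b` -/
theorem det_pattern (M : Matrix (Fin 4) (Fin 4) ℂ) (π : P4) {b : Fin 4} (hb : b ≠ 0)
    (hM : ∀ i, i ≠ 0 → i ≠ b → ∀ k, k ≠ π i → M i k = 0) :
    M.det = (Equiv.Perm.sign π : ℤ) * ((M 0 (π 0) * M b (π b) - M 0 (π b) * M b (π 0)) *
      ∏ i ∈ ({0, b} : Finset (Fin 4))ᶜ, M i (π i)) := by
  have hne : π ≠ π * swap 0 b := by
    intro h
    have : (1 : P4) = swap 0 b := by
      have h' : π * 1 = π * swap 0 b := by rw [mul_one]; exact h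
      exact mul_left_cancel h'
    have h2 := congrArg (fun σ : P4 => σ 0) this
    simp at h2
    exact hb h2.symm
  rw [← Matrix.det_transpose, Matrix.det_apply]
  rw [← Finset.sum_subset (Finset.subset_univ ({π, π * swap 0 b} : Finset P4))]
  · rw [Finset.sum_pair hne]
    have hsplit : ∀ f : Fin 4 → ℂ, ∏ i, f i = f 0 * f b * ∏ i ∈ ({0, b} : Finset (Fin 4))ᶜ, f i := by
      intro f
      rw [← Finset.prod_mul_prod_compl ({0, b} : Finset (Fin 4)) f, Finset.prod_pair (Ne.symm hb)]
    have hsgn : Perm.sign (π * swap 0 b) = - Perm.sign π := by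
      rw [Perm.sign_mul, Perm.sign_swap (Ne.symm hb)]; simp
    rw [hsgn]
    simp only [Matrix.transpose_apply]
    rw [hsplit (fun i => M i (π i)), hsplit (fun i => M i ((π * swap 0 b) i))]
    have h2 : ∏ i ∈ ({0, b} : Finset (Fin 4))ᶜ, M i ((π * swap 0 b) i) =
        ∏ i ∈ ({0, b} : Finset (Fin 4))ᶜ, M i (π i) := by
      apply Finset.prod_congr rfl
      intro i hi
      simp only [Finset.mem_compl, Finset.mem_insert, Finset.mem_singleton, not_or] at hi
      rw [Perm.mul_apply, swap_apply_of_ne_of_ne hi.1 hi.2]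
    rw [h2]
    simp only [Perm.mul_apply, swap_apply_left, swap_apply_right]
    simp only [Units.smul_def, Units.val_neg, zsmul_eq_mul, Int.cast_neg]
    ring
  · intro σ _ hσ
    simp only [Finset.mem_insert, Finset.mem_singleton, not_or] at hσ
    have : ∃ i, i ≠ 0 ∧ i ≠ b ∧ σ i ≠ π i := by
      by_contra hcon
      push Not at hcon
      -- σ agrees with π off {0,b}
      have h1 : ∀ i, i ≠ 0 → i ≠ b → (π⁻¹ * σ) i = i := by
        intro i hi0 hib
        rw [Perm.mul_apply, hcon i hi0 hib]; simp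
      have h0 : (π⁻¹ * σ) 0 = 0 ∨ (π⁻¹ * σ) 0 = b := by
        by_contra hc
        push Not at hc
        have := h1 _ hc.1 hc.2
        exact hc.1 ((π⁻¹ * σ).injective this)
      have hb' : (π⁻¹ * σ) b = 0 ∨ (π⁻¹ * σ) b = b := by
        by_contra hc
        push Not at hc
        have := h1 _ hc.1 hc.2
        exact hc.2 ((π⁻¹ * σ).injective this)
      rcases h0 with h0 | h0
      · have hbb : (π⁻¹ * σ) b = b := by
          rcases hb' with h | h
          · exact absurd ((π⁻¹ * σ).injective (h.trans h0.symm)) hb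
          · exact h
        apply hσ.1
        have : π⁻¹ * σ = 1 := by
          ext i
          by_cases hi0 : i = 0
          · subst hi0; simp [h0]
          by_cases hib : i = b
          · subst hib; simp [hbb]
          simp [h1 i hi0 hib]
        exact (inv_mul_eq_one.mp this).symm
      · have hbb : (π⁻¹ * σ) b = 0 := by
          rcases hb' with h | h
          · exact h
          · exact absurd ((π⁻¹ * σ).injective (h.trans h0.symm)) hb
        apply hσ.2
        have : π⁻¹ * σ = swap 0 b := by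
          ext i
          by_cases hi0 : i = 0
          · subst hi0; simp [h0]
          by_cases hib : i = b
          · subst hib; simp [hbb]
          rw [h1 i hi0 hib, swap_apply_of_ne_of_ne hi0 hib]
        rw [← this]; simp
    obtain ⟨i, hi0, hib, hi⟩ := this
    have : ∏ i, M.transpose (σ i) i = 0 := by
      apply Finset.prod_eq_zero (Finset.mem_univ i)
      rw [Matrix.transpose_apply]
      exact hM i hi0 hib _ hi
    rw [this, smul_zero]

end K4H41.PC
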