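import Mathlib
import Pool.Agent.K4H41.PC.Core

/-! The topological obstruction, second part. -/

namespace K4H41.PC

open Complex Set Equiv

variable {u : E4 → Matrix (Fin 4) (Fin 4) ℂ}

/-- the potential -/
def G (Dt : E4 → ℝ) (D₁ : Fin 4 → Fin 4 → E4 → ℝ) (π : P4) : ℝ :=
  Dt (vtx π) - ∑ i, D₁ i (π i) (vtx π)

theorem exp_sub_I (a b : ℝ) : Complex.exp (((a - b : ℝ) : ℂ) * I) =
    Complex.exp (a * I) / Complex.exp (b * I) := by
  rw [← Complex.exp_sub]; push_cast; ring_nf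

theorem lemmaA (h : Good u) (Dt : E4 → ℝ) (D₁ : Fin 4 → Fin 4 → E4 → ℝ)
    (hDt : ContinuousOn Dt Δ) (hDt' : ∀ x ∈ Δ, Complex.exp (Dt x * I) = (u x).det)
    (hD : ∀ i j, ContinuousOn (D₁ i j) (F₁ i j))
    (hD' : ∀ i j, ∀ x ∈ F₁ i j, Complex.exp (D₁ i j x * I) = u x i j)
    {b j j' : Fin 4} (hb : b ≠ 0) (hj : j ≠ j') :
    ∃ c : ℝ, (∃ m : ℤ, c = Real.pi + m * (2 * Real.pi)) ∧
      ∀ π : P4, π 0 = j → π b = j' → G Dt D₁ π - G Dt D₁ (π * swap 0 b) = c := by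
  classical
  -- the lift of the minor
  obtain ⟨D₂, hD₂, hD₂'⟩ := exists_lift (convex_Fc (fun π => ({0, b} : Finset (Fin 4)).image π ≠ {j, j'}))
    (mnr u b j j')
    (by
      have h1 := (h.contEntry 0 j).mono (Fc_sub (fun π => ({0, b} : Finset (Fin 4)).image π ≠ {j, j'}))
      have h2 := (h.contEntry b j').mono (Fc_sub (fun π => ({0, b} : Finset (Fin 4)).image π ≠ {j, j'}))
      have h3 := (h.contEntry 0 j').mono (Fc_sub (fun π => ({0, b} : Finset (Fin 4)).image π ≠ {j, j'}))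
      have h4 := (h.contEntry b j).mono (Fc_sub (fun π => ({0, b} : Finset (Fin 4)).image π ≠ {j, j'}))
      exact (h1.mul h2).sub (h3.mul h4))
    (fun x hx => h.norm₂ hb hj hx)
  have himg : ∀ π : P4, π 0 = j → π b = j' → ({0, b} : Finset (Fin 4)).image π = {j, j'} := by
    intro π h0 h1
    simp [Finset.image_insert, h0, h1]
  have himg' : ∀ π : P4, π 0 = j' → π b = j → ({0, b} : Finset (Fin 4)).image π = {j, j'} := by
    intro π h0 h1
    simp [Finset.image_insert, h0, h1, Finset.pair_comm]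
  -- the two constants
  let Sp : Set E4 := Fc (fun π => ¬ (π 0 = j ∧ π b = j'))
  let Sm : Set E4 := Fc (fun π => ¬ (π 0 = j' ∧ π b = j))
  have hSp0 : Sp ⊆ F₁ 0 j := fun x hx => ⟨hx.1, fun π hπ => hx.2 π (fun h => hπ h.1)⟩
  have hSpb : Sp ⊆ F₁ b j' := fun x hx => ⟨hx.1, fun π hπ => hx.2 π (fun h => hπ h.2)⟩
  have hSm0 : Sm ⊆ F₁ 0 j' := fun x hx => ⟨hx.1, fun π hπ => hx.2 π (fun h => hπ h.1)⟩
  have hSmb : Sm ⊆ F₁ b j := fun x hx => ⟨hx.1, fun π hπ => hx.2 π (fun h => hπ h.2)⟩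
  have hSp2 : Sp ⊆ F₂ b j j' := fun x hx => ⟨hx.1, fun π hπ => hx.2 π
    (fun h => hπ (himg π h.1 h.2))⟩
  have hSm2 : Sm ⊆ F₂ b j j' := fun x hx => ⟨hx.1, fun π hπ => hx.2 π
    (fun h => hπ (himg' π h.1 h.2))⟩
  let kp : E4 → ℝ := fun x => D₂ x - (D₁ 0 j x + D₁ b j' x)
  let km : E4 → ℝ := fun x => D₂ x - (D₁ 0 j' x + D₁ b j x)
  have hkp : ∀ x ∈ Sp, Complex.exp (kp x * I) = 1 := by
    intro x hx
    have e1 := hD₂' x (hSp2 hx)
    have e2 := hD' _ _ x (hSp0 hx)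
    have e3 := hD' _ _ x (hSpb hx)
    simp only [kp]
    rw [exp_sub_I, e1]
    push_cast
    rw [add_mul, Complex.exp_add, e2, e3]
    have z := h.zero₁ (hSp0 hx) j' (Ne.symm hj)
    have n0 : u x 0 j ≠ 0 := by
      rw [← norm_ne_zero_iff, h.norm₁ (hSp0 hx)]; norm_num
    have nb : u x b j' ≠ 0 := by
      rw [← norm_ne_zero_iff, h.norm₁ (hSpb hx)]; norm_num
    rw [mnr, z]
    field_simp
    ring
  have hkm : ∀ x ∈ Sm, Complex.exp (km x * I) = -1 := by
    intro x hx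
    have e1 := hD₂' x (hSm2 hx)
    have e2 := hD' _ _ x (hSm0 hx)
    have e3 := hD' _ _ x (hSmb hx)
    simp only [km]
    rw [exp_sub_I, e1]
    push_cast
    rw [add_mul, Complex.exp_add, e2, e3]
    have z := h.zero₁ (hSm0 hx) j hj
    have n0 : u x 0 j' ≠ 0 := by
      rw [← norm_ne_zero_iff, h.norm₁ (hSm0 hx)]; norm_num
    have nb : u x b j ≠ 0 := by
      rw [← norm_ne_zero_iff, h.norm₁ (hSmb hx)]; norm_num
    rw [mnr, z]
    field_simp
    ring
  have ckp : ContinuousOn kp Sp :=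
    (hD₂.mono hSp2).sub (((hD 0 j).mono hSp0).add ((hD b j').mono hSpb))
  have ckm : ContinuousOn km Sm :=
    (hD₂.mono hSm2).sub (((hD 0 j').mono hSm0).add ((hD b j).mono hSmb))
  -- the main identity
  have main : ∀ π : P4, π 0 = j → π b = j' →
      G Dt D₁ π - G Dt D₁ (π * swap 0 b) = kp (vtx π) - km (vtx (π * swap 0 b)) := by
    intro π h0 h1
    let S : Set E4 := Fc (fun ρ => ¬ (ρ = π ∨ ρ = π * swap 0 b))
    have hS2 : S ⊆ F₂ b j j' := by
      intro x hx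
      refine ⟨hx.1, fun ρ hρ => hx.2 ρ ?_⟩
      rintro (rfl | rfl)
      · exact hρ (himg _ h0 h1)
      · exact hρ (himg' _ (by simp [h1]) (by simp [h0]))
    have hSi : ∀ i ∈ ({0, b} : Finset (Fin 4))ᶜ, S ⊆ F₁ i (π i) := by
      intro i hi x hx
      simp only [Finset.mem_compl, Finset.mem_insert, Finset.mem_singleton, not_or] at hi
      refine ⟨hx.1, fun ρ hρ => hx.2 ρ ?_⟩
      rintro (rfl | rfl)
      · exact hρ rfl
      · exact hρ (by rw [Perm.mul_apply, swap_apply_of_ne_of_ne hi.1 hi.2])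
    let P : E4 → ℝ := fun x => Dt x - (D₂ x + ∑ i ∈ ({0, b} : Finset (Fin 4))ᶜ, D₁ i (π i) x)
    have hP : ∀ x ∈ S, Complex.exp (P x * I) = (Equiv.Perm.sign π : ℤ) := by
      intro x hx
      have hM : ∀ i, i ≠ 0 → i ≠ b → ∀ k, k ≠ π i → u x i k = 0 := by
        intro i hi0 hib k hk
        exact h.zero₁ (hSi i (by simp [hi0, hib]) hx) k hk
      have hdet := det_pattern (u x) π hb hM
      have hprod : Complex.exp (((∑ i ∈ ({0, b} : Finset (Fin 4))ᶜ, D₁ i (π i) x : ℝ) : ℂ) * I) =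
          ∏ i ∈ ({0, b} : Finset (Fin 4))ᶜ, u x i (π i) := by
        push_cast
        rw [Finset.sum_mul, Complex.exp_sum]
        apply Finset.prod_congr rfl
        intro i hi
        exact hD' _ _ x (hSi i hi hx)
      simp only [P]
      rw [exp_sub_I, hDt' x hx.1, Complex.ofReal_add, add_mul, Complex.exp_add, hD₂' x (hS2 hx),
        hprod, hdet, h0, h1]
      have hne : (mnr u b j j' x) * ∏ i ∈ ({0, b} : Finset (Fin 4))ᶜ, u x i (π i) ≠ 0 := by
        rw [← hD₂' x (hS2 hx), ← hprod]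
        exact mul_ne_zero (Complex.exp_ne_zero _) (Complex.exp_ne_zero _)
      rw [mnr] at hne ⊢
      exact mul_div_cancel_right₀ _ hne
    have cP : ContinuousOn P S := by
      refine (hDt.mono (Fc_sub _)).sub ((hD₂.mono hS2).add ?_)
      refine continuousOn_finsetSum _ (fun i hi => ?_)
      exact (hD i (π i)).mono (hSi i hi)
    have hPc : P (vtx π) = P (vtx (π * swap 0 b)) :=
      const_of_exp (preconnected_Fc _) cP _ hP _ (vtx_mem_Fc (by simp)) _ (vtx_mem_Fc (by simp))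
    have hsplit : ∀ f : Fin 4 → ℝ, ∑ i, f i = f 0 + f b + ∑ i ∈ ({0, b} : Finset (Fin 4))ᶜ, f i := by
      intro f
      rw [← Finset.sum_add_sum_compl ({0, b} : Finset (Fin 4)) f, Finset.sum_pair (Ne.symm hb)]
    simp only [G]
    rw [hsplit (fun i => D₁ i (π i) (vtx π)), hsplit (fun i => D₁ i ((π * swap 0 b) i) _)]
    have hrest : ∑ i ∈ ({0, b} : Finset (Fin 4))ᶜ, D₁ i ((π * swap 0 b) i) (vtx (π * swap 0 b)) =
        ∑ i ∈ ({0, b} : Finset (Fin 4))ᶜ, D₁ i (π i) (vtx (π * swap 0 b)) := by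
      apply Finset.sum_congr rfl
      intro i hi
      simp only [Finset.mem_compl, Finset.mem_insert, Finset.mem_singleton, not_or] at hi
      rw [Perm.mul_apply, swap_apply_of_ne_of_ne hi.1 hi.2]
    rw [hrest]
    have g0 : (π * swap 0 b) 0 = j' := by simp [h1]
    have gb : (π * swap 0 b) b = j := by simp [h0]
    rw [g0, gb, h0, h1]
    simp only [P] at hPc
    simp only [kp, km]
    linarith
  -- constants
  by_cases hex : ∃ π₀ : P4, π₀ 0 = j ∧ π₀ b = j'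
  · obtain ⟨π₀, h0, h1⟩ := hex
    refine ⟨kp (vtx π₀) - km (vtx (π₀ * swap 0 b)), ?_, ?_⟩
    · have e1 := hkp (vtx π₀) (vtx_mem_Fc (by simp [h0, h1]))
      have e2 := hkm (vtx (π₀ * swap 0 b)) (vtx_mem_Fc (by simp [h0, h1]))
      have e3 : Complex.exp (((kp (vtx π₀) - km (vtx (π₀ * swap 0 b)) : ℝ) : ℂ) * I) =
          Complex.exp (Real.pi * I) := by
        rw [exp_sub_I, e1, e2, Complex.exp_pi_mul_I]; norm_num
      rw [Complex.exp_eq_exp_iff_exists_int] at e3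
      obtain ⟨n, hn⟩ := e3
      refine ⟨n, ?_⟩
      have h2 : ((kp (vtx π₀) - km (vtx (π₀ * swap 0 b)) : ℝ) : ℂ) =
          Real.pi + n * (2 * Real.pi) := by
        have : (((kp (vtx π₀) - km (vtx (π₀ * swap 0 b)) : ℝ) : ℂ) -
            (Real.pi + n * (2 * Real.pi))) * I = 0 := by
          linear_combination hn
        rcases mul_eq_zero.mp this with h3 | h3
        · exact sub_eq_zero.mp h3
        · exact absurd h3 I_ne_zero
      exact_mod_cast h2
    · intro π g0 g1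
      rw [main π g0 g1]
      have e1 : kp (vtx π) = kp (vtx π₀) :=
        const_of_exp (preconnected_Fc _) ckp _ hkp _ (vtx_mem_Fc (by simp [g0, g1])) _
          (vtx_mem_Fc (by simp [h0, h1]))
      have e2 : km (vtx (π * swap 0 b)) = km (vtx (π₀ * swap 0 b)) :=
        const_of_exp (preconnected_Fc _) ckm _ hkm _ (vtx_mem_Fc (by simp [g0, g1])) _
          (vtx_mem_Fc (by simp [h0, h1]))
      rw [e1, e2]
  · refine ⟨Real.pi, ⟨0, by simp⟩, fun π g0 g1 => absurd ⟨π, g0, g1⟩ hex⟩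

theorem hexagon (g : P4 → ℝ) (c : Fin 4 → Fin 4 → Fin 4 → ℝ)
    (hc : ∀ b j j' : Fin 4, b ≠ 0 → j ≠ j' → ∀ π : P4, π 0 = j → π b = j' →
      g π - g (π * swap 0 b) = c b j j')
    (b b' : Fin 4) (hb : b ≠ 0) (hb' : b' ≠ 0) (hbb : b ≠ b') (π₁ : P4)
    (h0 : π₁ 0 = 0) (h1 : π₁ b = 1) (h2 : π₁ b' = 2) :
    c b 0 1 + c b' 1 2 + c b 2 0 + c b' 0 1 + c b 1 2 + c b' 2 0 = 0 := by
  have s1 : ∀ σ : P4, (σ * swap 0 b) 0 = σ b := fun σ => by simp
  have s2 : ∀ σ : P4, (σ * swap 0 b) b = σ 0 := fun σ => by simp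
  have s3 : ∀ σ : P4, (σ * swap 0 b) b' = σ b' := fun σ => by
    rw [Perm.mul_apply, swap_apply_of_ne_of_ne hb' (Ne.symm hbb)]
  have t1 : ∀ σ : P4, (σ * swap 0 b') 0 = σ b' := fun σ => by simp
  have t2 : ∀ σ : P4, (σ * swap 0 b') b' = σ 0 := fun σ => by simp
  have t3 : ∀ σ : P4, (σ * swap 0 b') b = σ b := fun σ => by
    rw [Perm.mul_apply, swap_apply_of_ne_of_ne hb hbb]
  have e1 := hc b 0 1 hb (by decide) π₁ h0 h1
  have e2 := hc b' 1 2 hb' (by decide) (π₁ * swap 0 b) (by rw [s1, h1]) (by rw [s3, h2])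
  have e3 := hc b 2 0 hb (by decide) (π₁ * swap 0 b * swap 0 b') (by rw [t1, s3, h2])
    (by rw [t3, s2, h0])
  have e4 := hc b' 0 1 hb' (by decide) (π₁ * swap 0 b * swap 0 b' * swap 0 b)
    (by rw [s1, t3, s2, h0]) (by rw [s3, t2, s1, h1])
  have e5 := hc b 1 2 hb (by decide) (π₁ * swap 0 b * swap 0 b' * swap 0 b * swap 0 b')
    (by rw [t1, s3, t2, s1, h1]) (by rw [t3, s2, t1, s3, h2])
  have e6 := hc b' 2 0 hb' (by decide)
    (π₁ * swap 0 b * swap 0 b' * swap 0 b * swap 0 b' * swap 0 b)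
    (by rw [s1, t3, s2, t1, s3, h2]) (by rw [s3, t2, s1, t3, s2, h0])
  have hcyc : π₁ * swap 0 b * swap 0 b' * swap 0 b * swap 0 b' * swap 0 b * swap 0 b' = π₁ := by
    ext i
    congr 1
    have hi : ∀ i : Fin 4, i = 0 ∨ i = b ∨ i = b' ∨ (i ≠ 0 ∧ i ≠ b ∧ i ≠ b') := by
      intro i; tauto
    rcases hi i with rfl | rfl | rfl | ⟨k0, kb, kb'⟩
    · rw [t1, s3, t2, s1, t3, s2]
    · rw [t3, s2, t1, s3, t2, s1]
    · rw [t2, s1, t3, s2, t1, s3]
    · simp only [Perm.mul_apply, swap_apply_of_ne_of_ne k0 kb, swap_apply_of_ne_of_ne k0 kb']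
  rw [hcyc] at e6
  linarith

/-- **The obstruction.** -/
theorem not_good (u : E4 → Matrix (Fin 4) (Fin 4) ℂ) : ¬ Good u := by
  intro h
  obtain ⟨Dt, hDt, hDt'⟩ := exists_lift convex_Δ (fun x => (u x).det)
    (by
      have := h.cont
      exact Continuous.comp_continuousOn (f := u) (g := Matrix.det)
        (by fun_prop) this) (fun x hx => h.norm_det hx)
  have hex : ∀ i j : Fin 4, ∃ D : E4 → ℝ, ContinuousOn D (F₁ i j) ∧
      ∀ x ∈ F₁ i j, Complex.exp (D x * I) = u x i j := fun i j =>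
    exists_lift (convex_Fc _) (fun x => u x i j) ((h.contEntry i j).mono (Fc_sub _))
      (fun x hx => h.norm₁ hx)
  choose D₁ hD hD' using hex
  have hA : ∀ b j j' : Fin 4, ∃ c : ℝ, (∃ m : ℤ, c = Real.pi + m * (2 * Real.pi)) ∧
      (b ≠ 0 → j ≠ j' →
      ∀ π : P4, π 0 = j → π b = j' → G Dt D₁ π - G Dt D₁ (π * swap 0 b) = c) := by
    intro b j j'
    by_cases hb : b = 0
    · exact ⟨Real.pi, ⟨0, by simp⟩, fun h => absurd hb h⟩
    by_cases hj : j = j'
    · exact ⟨Real.pi, ⟨0, by simp⟩, fun _ h => absurd hj h⟩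
    obtain ⟨c, h1, h2⟩ := lemmaA h Dt D₁ hDt hDt' hD hD' hb hj
    exact ⟨c, h1, fun _ _ => h2⟩
  choose c hc hc' using hA
  have x12 := hexagon (G Dt D₁) c hc' 1 2 (by decide) (by decide) (by decide) 1
    (by decide) (by decide) (by decide)
  have x13 := hexagon (G Dt D₁) c hc' 1 3 (by decide) (by decide) (by decide) (swap 2 3)
    (by decide) (by decide) (by decide)
  have x23 := hexagon (G Dt D₁) c hc' 2 3 (by decide) (by decide) (by decide)
    (swap 2 3 * swap 1 2) (by decide) (by decide) (by decide)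
  obtain ⟨m1, h1⟩ := hc 1 0 1
  obtain ⟨m2, h2⟩ := hc 1 1 2
  obtain ⟨m3, h3⟩ := hc 1 2 0
  have hs : c 1 0 1 + c 1 1 2 + c 1 2 0 = 0 := by linarith
  rw [h1, h2, h3] at hs
  have : Real.pi * ((3 + 2 * (m1 + m2 + m3) : ℤ) : ℝ) = 0 := by
    push_cast; linarith
  rcases mul_eq_zero.mp this with h4 | h4
  · exact Real.pi_ne_zero h4
  · have : (3 + 2 * (m1 + m2 + m3) : ℤ) = 0 := by exact_mod_cast h4
    omega

end K4H41.PC
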