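import Mathlib

/-! Definitions: classical multivariable systems, their C*-correspondences, unitary
equivalence and piecewise conjugacy. -/

namespace K4H41.PC

open scoped ZeroAtInfty
open Set

/-- `n` proper continuous self-maps of `X`. -/
structure DynSys (n : ℕ) (X : Type*) [TopologicalSpace X] where
  map : Fin n → X → X
  proper : ∀ i, IsProperMap (map i)

section
variable {n : ℕ} {X Y : Type*} [TopologicalSpace X] [T2Space X] [LocallyCompactSpace X]
  [TopologicalSpace Y] [T2Space Y] [LocallyCompactSpace Y]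

/-- the endomorphism `αᵢ(f) = f ∘ σᵢ` of `C₀(X)` -/
noncomputable def DynSys.pull (σ : DynSys n X) (i : Fin n) (f : C₀(X, ℂ)) : C₀(X, ℂ) :=
  f.comp ⟨⟨σ.map i, (σ.proper i).continuous⟩,
    (isProperMap_iff_tendsto_cocompact.mp (σ.proper i)).2⟩

/-- the inner product of the right Hilbert module `C₀(X)ⁿ` -/
noncomputable def inner (ξ η : Fin n → C₀(X, ℂ)) : C₀(X, ℂ) := ∑ i, star (ξ i) * η i

/-- the left action of `C₀(X)` on `C₀(X)ⁿ` attached to the system -/
noncomputable def DynSys.left (σ : DynSys n X) (a : C₀(X, ℂ)) (ξ : Fin n → C₀(X, ℂ)) :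
    Fin n → C₀(X, ℂ) := fun i => σ.pull i a * ξ i

/-- unitary equivalence of the correspondences -/
def UnitarilyEquivalent (σ : DynSys n X) (τ : DynSys n Y) : Prop :=
  ∃ (ρ : C₀(X, ℂ) ≃⋆ₐ[ℂ] C₀(Y, ℂ)) (U : (Fin n → C₀(X, ℂ)) →ₗ[ℂ] (Fin n → C₀(Y, ℂ))),
    Function.Surjective U ∧ (∀ ξ η, inner (U ξ) (U η) = ρ (inner ξ η)) ∧
      ∀ a ξ, U (σ.left a ξ) = τ.left (ρ a) (U ξ)

/-- piecewise conjugacy -/
def PiecewiseConjugate (σ : DynSys n X) (τ : DynSys n Y) : Prop :=
  ∃ (γ : X ≃ₜ Y) (V : Equiv.Perm (Fin n) → Set X), (∀ π, IsOpen (V π)) ∧ (⋃ π, V π) = univ ∧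
    ∀ π i, ∀ x ∈ V π, τ.map i (γ x) = γ (σ.map (π i) x)

end

/-! ### Extraction of the underlying map and of the unitary matrix -/

section
variable {n : ℕ} {X : Type*} [TopologicalSpace X] [T2Space X] [CompactSpace X]

/-- a continuous function on a compact space, seen in `C₀` -/
noncomputable def lft (f : C(X, ℂ)) : C₀(X, ℂ) where
  toFun := f
  zero_at_infty' := by simp

omit [T2Space X] in
@[simp] theorem lft_apply (f : C(X, ℂ)) (x : X) : lft f x = f x := rfl

/-- a star algebra automorphism of `C₀(X)`, `X` compact, comes from a continuous map -/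
theorem exists_map (ρ : C₀(X, ℂ) ≃⋆ₐ[ℂ] C₀(X, ℂ)) :
    ∃ g : X → X, Continuous g ∧ ∀ f x, ρ f x = f (g x) := by
  let one : C₀(X, ℂ) := lft (1 : C(X, ℂ))
  have hone : ∀ a : C₀(X, ℂ), one * a = a := by
    intro a; ext x; simp [one]
  have hρ1 : ρ one = one := by
    have h1 : ∀ a, ρ one * a = a := by
      intro a
      obtain ⟨b, hb⟩ := EquivLike.surjective ρ a
      rw [← hb, ← map_mul, hone]
    have h2 := h1 one
    have h3 : ρ one * one = one * ρ one := mul_comm _ _
    rw [h3, hone] at h2
    exact h2
  let ψ : C(X, ℂ) →⋆ₐ[ℂ] C(X, ℂ) :=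
    { toFun := fun f => (ρ (lft f)).toContinuousMap
      map_one' := by
        ext x
        have := congrArg (fun k : C₀(X, ℂ) => k x) hρ1
        simpa [one] using this
      map_mul' := by
        intro f g
        have : (lft (f * g) : C₀(X, ℂ)) =
          lft f * lft g := by
            ext x; simp
        rw [this, map_mul]
        rfl
      map_zero' := by
        have : (lft (0 : C(X, ℂ)) : C₀(X, ℂ)) = 0 := by
            ext x; simp
        rw [this, map_zero]
        rfl
      map_add' := by
        intro f g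
        have : (lft (f + g) : C₀(X, ℂ)) =
          lft f + lft g := by
            ext x; simp
        rw [this, map_add]
        rfl
      commutes' := by
        intro r
        have : (lft (algebraMap ℂ C(X, ℂ) r) : C₀(X, ℂ)) =
          r • one := by
            ext x; simp [one]
        rw [this, map_smul, hρ1]
        ext x
        simp [one]
      map_star' := by
        intro f
        have : (lft (star f) : C₀(X, ℂ)) =
          star (lft f) := by
            ext x; simp
        rw [this, map_star]
        rfl }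
  let g : X → X := fun x => (WeakDual.CharacterSpace.homeoEval X ℂ).symm
    (WeakDual.CharacterSpace.compContinuousMap ψ (WeakDual.CharacterSpace.homeoEval X ℂ x))
  refine ⟨g, by fun_prop, ?_⟩
  intro f x
  have h1 : WeakDual.CharacterSpace.homeoEval X ℂ (g x) =
      WeakDual.CharacterSpace.compContinuousMap ψ (WeakDual.CharacterSpace.homeoEval X ℂ x) := by
    simp [g]
  have h2 := congrArg (fun χ : WeakDual.characterSpace ℂ C(X, ℂ) => χ f.toContinuousMap) h1
  have h3 : f (g x) = ψ f.toContinuousMap x := h2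
  rw [h3]
  rfl

theorem extract (σ τ : DynSys n X) (h : UnitarilyEquivalent σ τ) :
    ∃ (g : X → X) (u : X → Matrix (Fin n) (Fin n) ℂ), Continuous g ∧ Continuous u ∧
      (∀ x, (u x).conjTranspose * u x = 1) ∧
      ∀ x i j, u x i j ≠ 0 → σ.map j (g x) = g (τ.map i x) := by
  classical
  obtain ⟨ρ, U, hsurj, hin, hint⟩ := h
  obtain ⟨g, hg, hρ⟩ := exists_map ρ
  let one : C₀(X, ℂ) := lft (1 : C(X, ℂ))
  have one_apply : ∀ x, one x = 1 := fun x => rfl
  let e : Fin n → (Fin n → C₀(X, ℂ)) := fun j => Pi.single j one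
  have inner_apply : ∀ (ξ η : Fin n → C₀(X, ℂ)) (x : X),
      inner ξ η x = ∑ i, star (ξ i x) * η i x := by
    intro ξ η x
    have : ∀ s : Finset (Fin n), (∑ i ∈ s, star (ξ i) * η i : C₀(X, ℂ)) x =
        ∑ i ∈ s, star (ξ i x) * η i x := by
      intro s
      induction s using Finset.induction_on with
      | empty => simp
      | insert a s ha ih =>
        rw [Finset.sum_insert ha, Finset.sum_insert ha, ← ih]
        rfl
    exact this _
  have inner_zero : ∀ v : Fin n → C₀(X, ℂ), inner v v = 0 → v = 0 := by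
    intro v hv
    funext i
    ext x
    have h1 := inner_apply v v x
    rw [hv] at h1
    have h2 : ∑ i, (Complex.normSq (v i x) : ℂ) = 0 := by
      rw [show (0 : ℂ) = (0 : C₀(X, ℂ)) x from rfl, h1]
      apply Finset.sum_congr rfl
      intro i _
      rw [Complex.normSq_eq_conj_mul_self]
      rfl
    have h3 : ∑ i, Complex.normSq (v i x) = 0 := by exact_mod_cast h2
    rw [Finset.sum_eq_zero_iff_of_nonneg (fun i _ => Complex.normSq_nonneg _)] at h3
    have := h3 i (Finset.mem_univ i)
    simpa using this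
  -- the module property
  have hmod : ∀ (ξ : Fin n → C₀(X, ℂ)) (b : C₀(X, ℂ)),
      U (fun i => ξ i * b) = fun i => U ξ i * ρ b := by
    intro ξ b
    have key : ∀ ζ, inner (U (fun i => ξ i * b) - fun i => U ξ i * ρ b) (U ζ) = 0 := by
      intro ζ
      have e1 := hin (fun i => ξ i * b) ζ
      have e2 := hin ξ ζ
      ext x
      have e1x := congrArg (fun k : C₀(X, ℂ) => k x) e1
      have e2x := congrArg (fun k : C₀(X, ℂ) => k x) e2
      simp only [inner_apply, hρ] at e1x e2x
      rw [inner_apply]
      simp only [Pi.sub_apply, ZeroAtInftyContinuousMap.coe_sub, ZeroAtInftyContinuousMap.coe_mul,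
        Pi.mul_apply, star_sub, star_mul', ZeroAtInftyContinuousMap.coe_zero, Pi.zero_apply, hρ,
        sub_mul, Finset.sum_sub_distrib] at e1x e2x ⊢
      rw [e1x]
      have e3 : ∑ i, star (U ξ i x) * star (b (g x)) * (U ζ i) x =
          star (b (g x)) * ∑ i, star (U ξ i x) * (U ζ i) x := by
        rw [Finset.mul_sum]
        exact Finset.sum_congr rfl (fun i _ => by ring)
      rw [e3, e2x, Finset.mul_sum, ← Finset.sum_sub_distrib]
      apply Finset.sum_eq_zero
      intro i _
      ring
    obtain ⟨ζ, hζ⟩ := hsurj (U (fun i => ξ i * b) - fun i => U ξ i * ρ b)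
    have h0 := key ζ
    rw [hζ] at h0
    exact sub_eq_zero.mp (inner_zero _ h0)
  refine ⟨g, fun x => Matrix.of fun i j => U (e j) i x, hg, ?_, ?_, ?_⟩
  · refine continuous_matrix (fun i j => ?_)
    exact map_continuous (U (e j) i)
  · intro x
    ext j k
    rw [Matrix.mul_apply]
    simp only [Matrix.conjTranspose_apply, Matrix.of_apply]
    have e1 := congrArg (fun k : C₀(X, ℂ) => k x) (hin (e j) (e k))
    simp only [inner_apply, hρ] at e1
    rw [e1, Matrix.one_apply]
    by_cases hjk : j = k
    · subst hjk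
      rw [Finset.sum_eq_single j]
      · simp [e, one_apply]
      · intro i _ hi
        simp [e, hi]
      · simp
    · rw [if_neg hjk]
      apply Finset.sum_eq_zero
      intro i _
      by_cases hi : i = j
      · subst hi
        simp [e, hjk]
      · simp [e, hi]
  · intro x i j hu
    simp only [Matrix.of_apply] at hu
    by_contra hne
    -- separate the two points
    obtain ⟨a, ha⟩ : ∃ a : C(X, ℂ), a (σ.map j (g x)) ≠ a (g (τ.map i x)) := by
      obtain ⟨f, hf0, hf1, -⟩ := exists_continuous_zero_one_of_isClosed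
        (isClosed_singleton (x := σ.map j (g x))) (isClosed_singleton (x := g (τ.map i x)))
        (by simpa [Set.disjoint_singleton] using hne)
      refine ⟨⟨fun y => (f y : ℂ), by fun_prop⟩, ?_⟩
      have h0 : f (σ.map j (g x)) = 0 := hf0 rfl
      have h1 : f (g (τ.map i x)) = 1 := hf1 rfl
      simp [h0, h1]
    let a' : C₀(X, ℂ) := lft a
    have h1 := hint a' (e j)
    have h2 : σ.left a' (e j) = fun i => e j i * σ.pull j a' := by
      funext i
      simp only [DynSys.left]
      by_cases hij : i = j
      · subst hij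
        exact mul_comm _ _
      · simp [e, hij]
    rw [h2, hmod] at h1
    have h3 := congrArg (fun k : C₀(X, ℂ) => k x) (congrFun h1 i)
    simp only [DynSys.left, ZeroAtInftyContinuousMap.coe_mul, Pi.mul_apply, hρ] at h3
    have h4 : σ.pull j a' (g x) = a (σ.map j (g x)) := rfl
    have h5 : τ.pull i (ρ a') x = a (g (τ.map i x)) := by
      change ρ a' (τ.map i x) = _
      rw [hρ]
      rfl
    rw [h4, h5, mul_comm] at h3
    exact ha (mul_right_cancel₀ hu h3)

/-- there is a permutation matching the maps -/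
theorem exists_perm (M : Matrix (Fin n) (Fin n) ℂ) (hM : M.conjTranspose * M = 1) :
    ∃ κ : Equiv.Perm (Fin n), ∀ i, M i (κ i) ≠ 0 := by
  classical
  have hdet : M.det ≠ 0 := by
    intro h0
    have := congrArg Matrix.det hM
    rw [Matrix.det_mul, h0, mul_zero, Matrix.det_one] at this
    exact zero_ne_one this
  rw [← Matrix.det_transpose, Matrix.det_apply] at hdet
  obtain ⟨κ, -, hκ⟩ := Finset.exists_ne_zero_of_sum_ne_zero hdet
  refine ⟨κ, fun i h0 => hκ ?_⟩
  rw [Finset.prod_eq_zero (Finset.mem_univ i) (by rw [Matrix.transpose_apply]; exact h0), smul_zero]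

end

end K4H41.PC
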