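import Mathlib
import Pool.Agent.K4H41.PC.Defs
import Pool.Agent.K4H41.PC.Core

/-! The compact metrizable space and the two systems. -/

namespace K4H41.PC

open Set Equiv

/-- the index set of coordinates -/
abbrev Idx := P4 ⊕ (Finset (Fin 4) × Finset (Fin 4))

noncomputable instance : Encodable Idx := Encodable.ofCountable Idx

/-- the simplex as a space -/
abbrev DS := stdSimplex ℝ P4

/-- the Hilbert cube -/
abbrev QQ := ℕ → unitInterval

/-- the space -/
abbrev XX := DS ⊕ (QQ ⊕ unitInterval)

/-- coordinates coded in the Hilbert cube -/
noncomputable def enc (v : Idx → unitInterval) : QQ := fun k =>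
  match (Encodable.decode k : Option Idx) with
  | some a => v a
  | none => 0

theorem enc_encode (v : Idx → unitInterval) (a : Idx) : enc v (Encodable.encode a) = v a := by
  simp [enc]

theorem continuous_enc : Continuous enc := by
  refine continuous_pi (fun k => ?_)
  unfold enc
  cases h : (Encodable.decode k : Option Idx) with
  | some a => simpa using continuous_apply a
  | none => simpa using continuous_const

/-- the detecting function of the block decomposition `(A, B)` -/
noncomputable def hh (A B : Finset (Fin 4)) (x : DS) : unitInterval :=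
  Set.projIcc 0 1 zero_le_one (1 - 30 * ∑ π ∈ Finset.univ.filter (fun π : P4 => B.image π ≠ A), x.1 π)

theorem continuous_hh (A B : Finset (Fin 4)) : Continuous (hh A B) := by
  refine continuous_projIcc.comp ?_
  fun_prop

theorem hh_one {A B : Finset (Fin 4)} {x : DS} (h : ∀ π : P4, B.image π ≠ A → x.1 π = 0) :
    hh A B x = 1 := by
  have : ∑ π ∈ Finset.univ.filter (fun π : P4 => B.image π ≠ A), x.1 π = 0 := by
    apply Finset.sum_eq_zero
    intro π hπ
    exact h π (Finset.mem_filter.mp hπ).2
  rw [hh, this]
  simp

theorem hh_zero {A B : Finset (Fin 4)} {x : DS} {π : P4} (hπ : B.image π ≠ A)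
    (hx : 1 / 30 < x.1 π) : hh A B x = 0 := by
  have : x.1 π ≤ ∑ π ∈ Finset.univ.filter (fun π : P4 => B.image π ≠ A), x.1 π :=
    Finset.single_le_sum (fun ρ _ => x.2.1 ρ) (by simp [hπ])
  rw [hh, Set.projIcc_of_le_left]
  · rfl
  · linarith

/-- the coordinate `x_π` as a point of the interval -/
noncomputable def cc (π : P4) (x : DS) : unitInterval :=
  ⟨x.1 π, x.2.1 π, by
    have := x.2.2
    calc x.1 π ≤ ∑ ρ, x.1 ρ := Finset.single_le_sum (fun ρ _ => x.2.1 ρ) (Finset.mem_univ π)
      _ = 1 := this⟩

theorem continuous_cc (π : P4) : Continuous (cc π) :=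
  Continuous.subtype_mk ((continuous_apply π).comp continuous_subtype_val) _

/-- coordinates of `σ_j x` -/
noncomputable def vS (j : Fin 4) (x : DS) : Idx → unitInterval
  | Sum.inl π => cc π x
  | Sum.inr AB => if j ∈ AB.1 then hh AB.1 AB.2 x else 0

/-- coordinates of `τ_i x` -/
noncomputable def vT (i : Fin 4) (x : DS) : Idx → unitInterval
  | Sum.inl π => cc π x
  | Sum.inr AB => if i ∈ AB.2 then hh AB.1 AB.2 x else 0

theorem continuous_vS (j : Fin 4) : Continuous (vS j) := by
  refine continuous_pi (fun a => ?_)
  rcases a with π | AB
  · exact continuous_cc π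
  · simp only [vS]
    split_ifs
    · exact continuous_hh _ _
    · exact continuous_const

theorem continuous_vT (j : Fin 4) : Continuous (vT j) := by
  refine continuous_pi (fun a => ?_)
  rcases a with π | AB
  · exact continuous_cc π
  · simp only [vT]
    split_ifs
    · exact continuous_hh _ _
    · exact continuous_const

/-- `t ↦ t/2` -/
noncomputable def lf (t : unitInterval) : unitInterval :=
  ⟨t / 2, by have := t.2.1; have := t.2.2; constructor <;> linarith⟩

/-- `t ↦ (t+1)/2` -/
noncomputable def rt (t : unitInterval) : unitInterval :=
  ⟨(t + 1) / 2, by have := t.2.1; have := t.2.2; constructor <;> linarith⟩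

theorem continuous_lf : Continuous lf := by unfold lf; fun_prop
theorem continuous_rt : Continuous rt := by unfold rt; fun_prop

/-- the maps on `Q ⊕ I` -/
noncomputable def base (j : Fin 4) : QQ ⊕ unitInterval → XX
  | Sum.inl z => if j = 0 then Sum.inr (Sum.inr (z 0)) else Sum.inr (Sum.inl (fun k => z (k + 1)))
  | Sum.inr t => Sum.inr (Sum.inr (if j = 0 then lf t else rt t))

theorem continuous_base (j : Fin 4) : Continuous (base j) := by
  rw [continuous_sum_dom]
  constructor
  · change Continuous (fun z : QQ => base j (Sum.inl z))
    simp only [base]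
    split_ifs
    · exact continuous_inr.comp (continuous_inr.comp (continuous_apply 0))
    · exact continuous_inr.comp (continuous_inl.comp
        (continuous_pi (fun k => continuous_apply (k + 1))))
  · change Continuous (fun t : unitInterval => base j (Sum.inr t))
    simp only [base]
    split_ifs
    · exact continuous_inr.comp (continuous_inr.comp continuous_lf)
    · exact continuous_inr.comp (continuous_inr.comp continuous_rt)

noncomputable def sMap (j : Fin 4) : XX → XX :=
  Sum.elim (fun x => Sum.inr (Sum.inl (enc (vS j x)))) (base j)

noncomputable def tMap (j : Fin 4) : XX → XX :=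
  Sum.elim (fun x => Sum.inr (Sum.inl (enc (vT j x)))) (base j)

theorem continuous_sMap (j : Fin 4) : Continuous (sMap j) :=
  continuous_sum_dom.mpr ⟨continuous_inr.comp (continuous_inl.comp
    (continuous_enc.comp (continuous_vS j))), continuous_base j⟩

theorem continuous_tMap (j : Fin 4) : Continuous (tMap j) :=
  continuous_sum_dom.mpr ⟨continuous_inr.comp (continuous_inl.comp
    (continuous_enc.comp (continuous_vT j))), continuous_base j⟩

noncomputable def sSys : DynSys 4 XX := ⟨sMap, fun i => (continuous_sMap i).isProperMap⟩
noncomputable def tSys : DynSys 4 XX := ⟨tMap, fun i => (continuous_tMap i).isProperMap⟩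

instance : CompactSpace XX := inferInstance
instance : T2Space XX := inferInstance
instance : SecondCountableTopology XX := inferInstance
instance : TopologicalSpace.MetrizableSpace XX := inferInstance

theorem piecewise : PiecewiseConjugate sSys tSys := by
  classical
  refine ⟨Homeomorph.refl _, fun π => Sum.elim (fun x : DS => 1 / 30 < x.1 π) (fun _ => π = 1), ?_, ?_, ?_⟩
  · intro π
    rw [isOpen_sum_iff]
    constructor
    · have : Continuous (fun x : DS => x.1 π) := (continuous_apply π).comp continuous_subtype_val
      exact isOpen_lt continuous_const this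
    · by_cases h : π = 1
      · convert isOpen_univ using 1
        ext y
        simp [Set.mem_preimage, h]
        trivial
      · convert isOpen_empty using 1
        ext y
        simp only [Set.mem_preimage, Set.mem_empty_iff_false, iff_false]
        intro hy
        exact h hy
  · rw [Set.eq_univ_iff_forall]
    rintro (x | y)
    · by_contra hcon
      simp only [Set.mem_iUnion, not_exists] at hcon
      have h1 : ∀ π : P4, x.1 π ≤ 1 / 30 := fun π => not_lt.mp (hcon π)
      have h2 : ∑ π : P4, x.1 π = 1 := x.2.2
      have h3 : ∑ π : P4, x.1 π ≤ ∑ π : P4, (1 / 30 : ℝ) := Finset.sum_le_sum (fun π _ => h1 π)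
      rw [h2, Finset.sum_const, Finset.card_univ, Fintype.card_perm] at h3
      norm_num [Nat.factorial] at h3
    · exact Set.mem_iUnion.mpr ⟨1, rfl⟩
  · rintro π i (x | y) hx
    · have hx' : 1 / 30 < x.1 π := hx
      have : vT i x = vS (π i) x := by
        funext a
        rcases a with ρ | ⟨A, B⟩
        · rfl
        · simp only [vT, vS]
          by_cases hπ : B.image π = A
          · have : i ∈ B ↔ π i ∈ A := by
              rw [← hπ]
              simp
            simp [this]
          · rw [hh_zero hπ hx']
            simp
      change Sum.inr (Sum.inl (enc (vT i x))) = Sum.inr (Sum.inl (enc (vS (π i) x)))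
      rw [this]
    · have : π = 1 := hx
      subst this
      rfl

end K4H41.PC
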