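import Mathlib
import Pool.Agent.K4H41.PC.Space
import Pool.Agent.K4H41.PC.Core2

/-! Rigidity of the space, and the conclusion. -/

namespace K4H41.PC

open Set Equiv

abbrev iD (x : DS) : XX := Sum.inl x
abbrev iQ (z : QQ) : XX := Sum.inr (Sum.inl z)
abbrev iI (t : unitInterval) : XX := Sum.inr (Sum.inr t)

def sh (z : QQ) : QQ := fun k => z (k + 1)

theorem match2 {α : Type*} (κ : P4) (a b c d : α)
    (h : ∀ i, (if κ i = 0 then a else b) = (if i = 0 then c else d)) : a = c ∧ b = d := by
  by_cases h0 : κ 0 = 0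
  · have e0 := h 0
    have e1 := h 1
    have : κ 1 ≠ 0 := fun h1 => by
      have := κ.injective (h1.trans h0.symm)
      exact absurd this (by decide)
    simp only [h0, this, if_true, if_false, one_ne_zero] at e0 e1
    exact ⟨e0, e1⟩
  · have e0 := h 0
    simp only [h0, if_true, if_false] at e0
    obtain ⟨i₀, hi₀⟩ := κ.surjective 0
    have hi₀0 : i₀ ≠ 0 := by rintro rfl; exact h0 hi₀
    have e1 := h i₀
    simp only [hi₀, hi₀0, if_true, if_false] at e1
    obtain ⟨k, hk0, hk1⟩ : ∃ k : Fin 4, k ≠ 0 ∧ k ≠ i₀ := by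
      clear e1 hi₀ hi₀0
      fin_cases i₀
      · exact ⟨1, by decide, by decide⟩
      · exact ⟨2, by decide, by decide⟩
      · exact ⟨1, by decide, by decide⟩
      · exact ⟨1, by decide, by decide⟩
    have e2 := h k
    have hk : κ k ≠ 0 := fun h1 => hk1 (κ.injective (h1.trans hi₀.symm))
    simp only [hk, hk0, if_false] at e2
    exact ⟨by rw [e1, ← e2, e0], e2⟩

theorem sMap_iI (j : Fin 4) (s : unitInterval) :
    sMap j (iI s) = if j = 0 then iI (lf s) else iI (rt s) := by
  by_cases h : j = 0 <;> simp [sMap, base, h, iI]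

theorem tMap_iI (j : Fin 4) (s : unitInterval) :
    tMap j (iI s) = if j = 0 then iI (lf s) else iI (rt s) := by
  by_cases h : j = 0 <;> simp [tMap, base, h, iI]

theorem sMap_iQ (j : Fin 4) (z : QQ) :
    sMap j (iQ z) = if j = 0 then iI (z 0) else iQ (sh z) := by
  by_cases h : j = 0 <;> simp [sMap, base, h, iI, iQ] <;> rfl

theorem tMap_iQ (j : Fin 4) (z : QQ) :
    tMap j (iQ z) = if j = 0 then iI (z 0) else iQ (sh z) := by
  by_cases h : j = 0 <;> simp [tMap, base, h, iI, iQ] <;> rfl

theorem sMap_iD (j : Fin 4) (x : DS) : sMap j (iD x) = iQ (enc (vS j x)) := rfl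
theorem tMap_iD (j : Fin 4) (x : DS) : tMap j (iD x) = iQ (enc (vT j x)) := rfl

/-- which piece -/
def kind : XX → Fin 3 := Sum.elim (fun _ => 0) (Sum.elim (fun _ => 1) (fun _ => 2))

theorem continuous_kind : Continuous kind :=
  continuous_sum_dom.mpr ⟨continuous_const, continuous_sum_dom.mpr ⟨continuous_const,
    continuous_const⟩⟩

theorem kind_two {y : XX} (h : kind y = 2) : ∃ s, y = iI s := by
  rcases y with x | z | s
  · exact absurd h (by simp [kind])
  · exact absurd h (by simp [kind])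
  · exact ⟨s, rfl⟩

theorem kind_one {y : XX} (h : kind y = 1) : ∃ s, y = iQ s := by
  rcases y with x | z | s
  · exact absurd h (by simp [kind])
  · exact ⟨z, rfl⟩
  · exact absurd h (by simp [kind])

theorem lf_or_rt (t : unitInterval) : (∃ s, t = lf s) ∨ ∃ s, t = rt s := by
  have h0 := t.2.1
  have h1 := t.2.2
  rcases le_total (t : ℝ) (1 / 2) with h | h
  · left
    refine ⟨⟨2 * t, by linarith, by linarith⟩, ?_⟩
    ext; simp [lf]
  · right
    refine ⟨⟨2 * t - 1, by linarith, by linarith⟩, ?_⟩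
    ext; simp [rt]

theorem iI_inj {s t : unitInterval} (h : iI s = iI t) : s = t := by
  simpa [iI] using h

theorem iQ_inj {s t : QQ} (h : iQ s = iQ t) : s = t := by
  simpa [iQ] using h

theorem iI_ne_iQ {s : unitInterval} {t : QQ} (h : iI s = iQ t) : False := by
  simp [iI, iQ] at h

variable {g : XX → XX} (hg : Continuous g)
  (hM : ∀ x, ∃ κ : P4, ∀ i, sMap (κ i) (g x) = g (tMap i x))

include hM in
/-- matching at a point of `I` mapped to `I` -/
theorem step_II {t s : unitInterval} (h : g (iI t) = iI s) :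
    g (iI (lf t)) = iI (lf s) ∧ g (iI (rt t)) = iI (rt s) := by
  obtain ⟨κ, hκ⟩ := hM (iI t)
  have := match2 κ (iI (lf s)) (iI (rt s)) (g (iI (lf t))) (g (iI (rt t))) (by
    intro i
    have := hκ i
    rw [h, sMap_iI, tMap_iI] at this
    rw [this]
    split_ifs <;> rfl)
  exact ⟨this.1.symm, this.2.symm⟩

include hM in
theorem step_IQ {t : unitInterval} {z : QQ} (h : g (iI t) = iQ z) :
    g (iI (lf t)) = iI (z 0) ∧ g (iI (rt t)) = iQ (sh z) := by
  obtain ⟨κ, hκ⟩ := hM (iI t)
  have := match2 κ (iI (z 0)) (iQ (sh z)) (g (iI (lf t))) (g (iI (rt t))) (by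
    intro i
    have := hκ i
    rw [h, sMap_iQ, tMap_iI] at this
    rw [this]
    split_ifs <;> rfl)
  exact ⟨this.1.symm, this.2.symm⟩

include hM in
theorem step_QI {w : QQ} {s : unitInterval} (h : g (iQ w) = iI s) :
    g (iI (w 0)) = iI (lf s) ∧ g (iQ (sh w)) = iI (rt s) := by
  obtain ⟨κ, hκ⟩ := hM (iQ w)
  have := match2 κ (iI (lf s)) (iI (rt s)) (g (iI (w 0))) (g (iQ (sh w))) (by
    intro i
    have := hκ i
    rw [h, sMap_iI, tMap_iQ] at this
    rw [this]
    split_ifs <;> rfl)
  exact ⟨this.1.symm, this.2.symm⟩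

include hM in
theorem step_QQ {w z : QQ} (h : g (iQ w) = iQ z) :
    g (iI (w 0)) = iI (z 0) ∧ g (iQ (sh w)) = iQ (sh z) := by
  obtain ⟨κ, hκ⟩ := hM (iQ w)
  have := match2 κ (iI (z 0)) (iQ (sh z)) (g (iI (w 0))) (g (iQ (sh w))) (by
    intro i
    have := hκ i
    rw [h, sMap_iQ, tMap_iQ] at this
    rw [this]
    split_ifs <;> rfl)
  exact ⟨this.1.symm, this.2.symm⟩

theorem lf_zero : lf 0 = 0 := by ext; simp [lf]

include hM in
theorem g_zero : ∃ s, g (iI 0) = iI s := by
  rcases hy : g (iI 0) with x | z | s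
  · exfalso
    obtain ⟨κ, hκ⟩ := hM (iI 0)
    have := hκ 0
    rw [tMap_iI, if_pos rfl, lf_zero, hy] at this
    change iQ _ = iD x at this
    simp [iQ, iD] at this
  · exfalso
    have := (step_IQ hM hy).1
    rw [lf_zero, hy] at this
    exact iI_ne_iQ this.symm
  · exact ⟨s, rfl⟩

include hM hg in
theorem g_I (t : unitInterval) : g (iI t) = iI t := by
  have hc : Continuous (fun t => kind (g (iI t))) :=
    continuous_kind.comp (hg.comp (continuous_inr.comp continuous_inr))
  obtain ⟨s0, hs0⟩ := g_zero hM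
  have hk : ∀ t, kind (g (iI t)) = 2 := by
    intro t
    have h1 : kind (g (iI t)) = kind (g (iI 0)) :=
      (inferInstance : PreconnectedSpace unitInterval).constant hc
    rw [h1, hs0]
    rfl
  have hex : ∀ t, ∃ s, g (iI t) = iI s := fun t => kind_two (hk t)
  choose φ hφ using hex
  have hl : ∀ t, φ (lf t) = lf (φ t) := fun t =>
    iI_inj ((hφ _).symm.trans (step_II hM (hφ t)).1)
  have hr : ∀ t, φ (rt t) = rt (φ t) := fun t =>
    iI_inj ((hφ _).symm.trans (step_II hM (hφ t)).2)
  have hb : ∀ n : ℕ, ∀ t, |(φ t : ℝ) - t| ≤ (1 / 2) ^ n := by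
    intro n
    induction n with
    | zero =>
      intro t
      have h1 := (φ t).2.1; have h2 := (φ t).2.2; have h3 := t.2.1; have h4 := t.2.2
      rw [abs_le]; constructor <;> simp <;> linarith
    | succ n ih =>
      intro t
      rcases lf_or_rt t with ⟨s, rfl⟩ | ⟨s, rfl⟩
      · rw [hl]
        have h1 : ((lf (φ s) : unitInterval) : ℝ) - (lf s : unitInterval) = (1 / 2) * ((φ s : ℝ) - s) := by
          simp only [lf]; ring
        rw [h1, abs_mul, pow_succ, mul_comm]
        have := ih s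
        rw [abs_of_pos (by norm_num : (0 : ℝ) < 1 / 2)]
        nlinarith
      · rw [hr]
        have h1 : ((rt (φ s) : unitInterval) : ℝ) - (rt s : unitInterval) = (1 / 2) * ((φ s : ℝ) - s) := by
          simp only [rt]; ring
        rw [h1, abs_mul, pow_succ, mul_comm]
        have := ih s
        rw [abs_of_pos (by norm_num : (0 : ℝ) < 1 / 2)]
        nlinarith
  rw [hφ t]
  congr 2
  ext
  by_contra hne
  have hpos : 0 < |(φ t : ℝ) - t| := abs_pos.mpr (sub_ne_zero.mpr hne)
  obtain ⟨n, hn⟩ := exists_pow_lt_of_lt_one hpos (by norm_num : (1 / 2 : ℝ) < 1)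
  exact absurd (hb n t) (not_le.mpr hn)

include hM hg in
theorem g_Q (z : QQ) : g (iQ z) = iQ z := by
  have hzero : ∃ w, g (iQ 0) = iQ w := by
    rcases hy : g (iQ 0) with x | w | s
    · exfalso
      obtain ⟨κ, hκ⟩ := hM (iQ 0)
      have := hκ 0
      rw [tMap_iQ, if_pos rfl, g_I hg hM, hy] at this
      exact iI_ne_iQ this.symm
    · exact ⟨w, rfl⟩
    · exfalso
      have h1 := step_QI hM hy
      have e1 : lf s = 0 := by
        have := h1.1
        rw [g_I hg hM] at this
        exact (iI_inj this).symm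
      have e2 : rt s = s := by
        have h2 : sh (0 : QQ) = 0 := rfl
        have := h1.2
        rw [h2, hy] at this
        exact (iI_inj this).symm
      have e1' := congrArg (fun t : unitInterval => (t : ℝ)) e1
      have e2' := congrArg (fun t : unitInterval => (t : ℝ)) e2
      simp [lf] at e1'
      simp only [rt] at e2'
      rw [e1'] at e2'
      norm_num at e2'
  have hc : Continuous (fun z => kind (g (iQ z))) :=
    continuous_kind.comp (hg.comp (continuous_inr.comp continuous_inl))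
  obtain ⟨w0, hw0⟩ := hzero
  have hk : ∀ z, kind (g (iQ z)) = 1 := by
    intro z
    have h1 : kind (g (iQ z)) = kind (g (iQ 0)) :=
      (inferInstance : PreconnectedSpace QQ).constant hc
    rw [h1, hw0]
    rfl
  have hex : ∀ z, ∃ w, g (iQ z) = iQ w := fun z => kind_one (hk z)
  choose θ hθ using hex
  have h0 : ∀ z, θ z 0 = z 0 := fun z => by
    have := (step_QQ hM (hθ z)).1
    rw [g_I hg hM] at this
    exact (iI_inj this).symm
  have hs : ∀ z, θ (sh z) = sh (θ z) := fun z =>
    iQ_inj ((hθ _).symm.trans (step_QQ hM (hθ z)).2)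
  have hk : ∀ k : ℕ, ∀ z, θ z k = z k := by
    intro k
    induction k with
    | zero => exact h0
    | succ k ih =>
      intro z
      have h1 := ih (sh z)
      rw [hs] at h1
      exact h1
  rw [hθ z]
  congr 2
  funext k
  exact hk k z

include hM hg in
theorem g_D (x : DS) : g (iD x) = iD x := by
  obtain ⟨κ, hκ⟩ := hM (iD x)
  rcases hy : g (iD x) with x' | w | s
  · have h0 := hκ 0
    rw [hy, tMap_iD, g_Q hg hM] at h0
    have h1 : enc (vS (κ 0) x') = enc (vT 0 x) := iQ_inj h0
    congr 1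
    ext π
    have h2 := congrFun h1 (Encodable.encode (Sum.inl π : Idx))
    rw [enc_encode, enc_encode] at h2
    exact congrArg (fun t : unitInterval => (t : ℝ)) h2
  · exfalso
    obtain ⟨i, hi⟩ := κ.surjective 0
    have h0 := hκ i
    rw [hi, hy, tMap_iD, g_Q hg hM] at h0
    exact iI_ne_iQ h0
  · exfalso
    have h0 := hκ 0
    rw [hy, tMap_iD, g_Q hg hM] at h0
    change sMap (κ 0) (iI s) = _ at h0
    rw [sMap_iI] at h0
    split_ifs at h0 <;> exact iI_ne_iQ h0

theorem not_unitarily : ¬ UnitarilyEquivalent sSys tSys := by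
  classical
  intro h
  obtain ⟨g, u, hg, hu, hU, hmatch⟩ := extract sSys tSys h
  have hM : ∀ x, ∃ κ : P4, ∀ i, sMap (κ i) (g x) = g (tMap i x) := by
    intro x
    obtain ⟨κ, hκ⟩ := exists_perm (u x) (hU x)
    exact ⟨κ, fun i => hmatch x i (κ i) (hκ i)⟩
  refine not_good (fun x => if h : x ∈ Δ then u (iD ⟨x, h⟩) else 0) ⟨?_, ?_, ?_⟩
  · rw [continuousOn_iff_continuous_domRestrict]
    have : Δ.domRestrict (fun x => if h : x ∈ Δ then u (iD ⟨x, h⟩) else 0) =
        fun x : Δ => u (iD x) := by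
      ext x
      simp [Set.domRestrict_apply]
    rw [this]
    exact hu.comp continuous_inl
  · intro x hx
    simp only [hx, dif_pos]
    exact hU _
  · intro x hx A B hface i j hne
    simp only [hx, dif_pos] at hne
    have h1 := hmatch _ i j hne
    change sMap j (g (iD ⟨x, hx⟩)) = g (tMap i (iD ⟨x, hx⟩)) at h1
    rw [g_D hg hM, sMap_iD, tMap_iD, g_Q hg hM] at h1
    have h2 := congrFun (iQ_inj h1) (Encodable.encode (Sum.inr (A, B) : Idx))
    rw [enc_encode, enc_encode] at h2
    simp only [vS, vT] at h2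
    rw [hh_one (x := ⟨x, hx⟩) (fun π hπ => hface π hπ)] at h2
    by_cases hj : j ∈ A <;> by_cases hi : i ∈ B <;> simp [hj, hi] at h2 ⊢

end K4H41.PC
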